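import Pool.Agent.R693.C.Final

/-!
# Primitive ideals of `U(W_{-1})`, `U(W)` and `U(Vir)` are completely prime

Let `g` be one of the Lie algebras `W_{-1}`, `W`, `Vir` over an algebraically closed field of
characteristic zero.  Every primitive ideal, and more generally every prime ideal, of the enveloping
algebra `U(g)` is completely prime.

Idea (see `Pool/Agent/R693/C` and `Pool/Agent/R693/E`; these build on `Pool/Agent/R693/W` and
`Pool/Agent/R693/R`).  Write `x m = t^m ∂`.
* A theorem on rings (`R693/E`): let `K` be a field of characteristic zero and `R` a prime `K`-algebra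
  generated by `y_1, …, y_n` such that `[y_{j+1}, R_j] ⊆ R_j`, with `R_j` generated by `y_1, …, y_j`; then
  `R` is a domain.  (Induction on `n`: `R_{n-1}` is prime and Noetherian, hence a domain by induction; in
  the localisation at its nonzero elements an ideal of the Ore extension `D[y; δ]` not generated by a
  central element is impossible, and a central polynomial extends the ground field.)
* `W_{-1}` (`R693/C`): let `P` be a nonzero prime ideal of `U(W_{-1})`.  For suitable minimal `k` and `N` the
  values `η n` of `Δ^N (x (n 0) ⋯ x (n (k-1)))`, `Δ` the discriminant of the shifts, satisfy modulo `P`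
  the linear recurrences `Δ^N (x m · η) = 0`.  Over a field `K` containing the (inverses of the) shifts as
  scalars, one obtains a module `V` over the Lie algebra of vector fields `f ∂`, `f ∈ K[t]`, with
  annihilator `P`, on which every vector is killed by `f ∂` for all `f` divisible by a high power of a
  product of `t - s_i`, for finitely many points `s_i ∈ K`.  So the action of `W_{-1}` extends to a sum of
  commuting actions of its completions at the points `s_i`; a point at which `∂` acts with coefficients
  is dealt with by a chain of generators `x (M), …, x 1, x 0, ∂`: `P` is the kernel of a homomorphism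
  from `U(W_{-1})` to an algebra with a chain of generators as above.
* `W`: modulo a nonzero prime `P`, elements of `U(W)` can be moved into `U(W_{≥ -1})` by multiplying them
  with a value of `η` with large labels, from either side; this reduces to `W_{-1}`.
* `Vir`: a nonzero prime ideal contains `z - a` for some scalar `a`.  If `a ≠ 0`, it is generated by `z - a`
  and its quotient is a domain by a symbol argument; if `a = 0` it comes from `U(W)`.
-/

set_option autoImplicit false

namespace Pool.Agent.Results.MP_cc24ba_al.CompletelyPrime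

open Pool.Agent.R693 Pool.Agent.R693.W

/-- `L` is the Lie algebra `W_{-1}`: it has a basis `e_n`, `n ≥ -1`, with
`[e_m, e_n] = (n - m) e_{m + n}` (the right-hand side is zero for `m = n = -1`). -/
def IsWittMinusOne (F : Type) [Field F] (L : Type) [LieRing L] [LieAlgebra F L] : Prop :=
  ∃ e : Module.Basis {n : ℤ // -1 ≤ n} F L,
    (∀ (m n : {n : ℤ // -1 ≤ n}) (h : -1 ≤ m.1 + n.1),
      ⁅e m, e n⁆ = ((n.1 - m.1 : ℤ) : F) • e ⟨m.1 + n.1, h⟩)

/-- `L` is the Witt algebra `W`: it has a basis `e_n`, `n ∈ ℤ`, with
`[e_m, e_n] = (n - m) e_{m + n}`. -/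
def IsWitt (F : Type) [Field F] (L : Type) [LieRing L] [LieAlgebra F L] : Prop :=
  ∃ e : Module.Basis ℤ F L, ∀ m n : ℤ, ⁅e m, e n⁆ = ((n - m : ℤ) : F) • e (m + n)

/-- `L` is the Virasoro algebra `Vir`: it has a basis consisting of `e_n = e (some n)`, `n ∈ ℤ`, and
`z = e none`, with `z` central and
`[e_m, e_n] = (n - m) e_{m + n} + δ_{m + n, 0} (m ^ 3 - m) / 12 z`. -/
def IsVirasoro (F : Type) [Field F] (L : Type) [LieRing L] [LieAlgebra F L] : Prop :=
  ∃ e : Module.Basis (Option ℤ) F L, (∀ x : L, ⁅e none, x⁆ = 0) ∧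
    ∀ m n : ℤ, ⁅e (some m), e (some n)⁆ = ((n - m : ℤ) : F) • e (some (m + n)) +
      (if m + n = 0 then (((m : F) ^ 3 - (m : F)) / 12) • e none else 0)

/-- A two-sided ideal `P` is primitive if it is the annihilator of a simple left module. -/
def IsPrimitive {U : Type} [Ring U] (P : TwoSidedIdeal U) : Prop :=
  ∃ (M : Type) (_ : AddCommGroup M) (_ : Module U M), IsSimpleModule U M ∧
    ∀ a : U, a ∈ P ↔ ∀ x : M, a • x = 0

/-- A two-sided ideal `P` is prime if it is proper and `I J ⊆ P` implies `I ⊆ P` or `J ⊆ P`, for all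
two-sided ideals `I`, `J`. -/
def IsPrime {U : Type} [Ring U] (P : TwoSidedIdeal U) : Prop :=
  P ≠ ⊤ ∧ ∀ I J : TwoSidedIdeal U, (∀ a ∈ I, ∀ b ∈ J, a * b ∈ P) → I ≤ P ∨ J ≤ P

/-- A two-sided ideal `P` is completely prime if `U / P` is a domain: `P` is proper and `a b ∈ P` implies
`a ∈ P` or `b ∈ P`. -/
def IsCompletelyPrime {U : Type} [Ring U] (P : TwoSidedIdeal U) : Prop :=
  P ≠ ⊤ ∧ ∀ a b : U, a * b ∈ P → a ∈ P ∨ b ∈ P

/-- Every primitive ideal and every prime ideal of `U(L)` is completely prime. -/
def AllCompletelyPrime (F : Type) [Field F] (L : Type) [LieRing L] [LieAlgebra F L] : Prop :=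
  (∀ P : TwoSidedIdeal (UniversalEnvelopingAlgebra F L), IsPrimitive P → IsCompletelyPrime P) ∧
    ∀ P : TwoSidedIdeal (UniversalEnvelopingAlgebra F L), IsPrime P → IsCompletelyPrime P

lemma all_of {F : Type} [Field F] {L : Type} [LieRing L] [LieAlgebra F L]
    (h : ∀ P : TwoSidedIdeal (UniversalEnvelopingAlgebra F L), IsPrimeT P →
      ∀ a b, a * b ∈ P → a ∈ P ∨ b ∈ P) : AllCompletelyPrime F L := by
  have h2 : ∀ P : TwoSidedIdeal (UniversalEnvelopingAlgebra F L), IsPrime P →
      IsCompletelyPrime P := fun P hP => ⟨hP.1, h P ⟨hP.1, hP.2⟩⟩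
  refine ⟨?_, h2⟩
  rintro P ⟨M, _, _, _, hM⟩
  have h3 : IsPrimeT P := C.prime_of_ann hM
  exact h2 P ⟨h3.1, h3.2⟩

section
attribute [local instance 100] LieRing.ofAssociativeRing

variable {F : Type} [Field F] {L : Type} [LieRing L] [LieAlgebra F L]

lemma iota_comm (x y : L) : UniversalEnvelopingAlgebra.ι F x * UniversalEnvelopingAlgebra.ι F y -
    UniversalEnvelopingAlgebra.ι F y * UniversalEnvelopingAlgebra.ι F x =
      UniversalEnvelopingAlgebra.ι F ⁅x, y⁆ := by
  rw [LieHom.map_lie, LieRing.of_associative_ring_bracket]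

lemma dom (F : Type) [Field F] (L : Type) [LieRing L] [LieAlgebra F L]
    (x y : UniversalEnvelopingAlgebra F L) (h : x * y = 0) : x = 0 ∨ y = 0 := by
  obtain ⟨hd1, hd2, _⟩ := H67OL.t_DOM H67OL.t_PBW2 H67OL.t_SORT F L
  exact mul_eq_zero.mp h

lemma wittMinusOne [CharZero F] (hL : IsWittMinusOne F L) : AllCompletelyPrime F L := by
  obtain ⟨e, he⟩ := hL
  apply all_of
  intro P hP a b hab
  let eqv : {n : ℤ // -1 ≤ n} ≃ ℕ :=
    { toFun := fun n => (n.1 + 1).toNat
      invFun := fun m => ⟨(m : ℤ) - 1, by omega⟩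
      left_inv := fun n => Subtype.ext (by
        have := n.2
        change ((n.1 + 1).toNat : ℤ) - 1 = n.1
        omega)
      right_inv := fun m => by
        change ((m : ℤ) - 1 + 1).toNat = m
        omega }
  set c : Module.Basis ℕ F L := e.reindex eqv with hc
  have hcm : ∀ m : ℕ, c m = e ⟨(m : ℤ) - 1, by omega⟩ := fun m => by
    rw [hc, Module.Basis.reindex_apply]; rfl
  have hW : IsW F (fun m : ℕ => UniversalEnvelopingAlgebra.ι F (c m)) := by
    intro m n j hmn
    have h2 : (Lab.one : ℕ) = 1 := rfl
    have h3 : ∀ k : ℕ, (Lab.c k : ℤ) = k := fun k => rfl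
    rw [h2] at hmn
    beta_reduce
    rw [iota_comm, h3, h3]
    have h4 : ⁅c m, c n⁆ = (((n : ℤ) - (m : ℤ) : ℤ) : F) • c j := by
      rw [hcm, hcm, hcm, he _ _ (by
        change (-1 : ℤ) ≤ (m : ℤ) - 1 + ((n : ℤ) - 1)
        omega)]
      congr 2
      · change (n : ℤ) - 1 - ((m : ℤ) - 1) = (n : ℤ) - m
        ring
      · apply Subtype.ext
        change (m : ℤ) - 1 + ((n : ℤ) - 1) = (j : ℤ) - 1
        omega
    rw [h4, map_smul]
  exact C.cp_one (F := F) hW (span_of_adjoin (uea_adjoin_basis F c)) (dom F L) hP hab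

lemma witt [CharZero F] (hL : IsWitt F L) : AllCompletelyPrime F L := by
  obtain ⟨e, he⟩ := hL
  apply all_of
  intro P hP a b hab
  let eqv : ℤ ≃ ℤ := ⟨fun i => i + 1, fun i => i - 1, fun i => by simp, fun i => by simp⟩
  set c : Module.Basis ℤ F L := e.reindex eqv with hc
  have hcm : ∀ m, c m = e (m - 1) := fun m => by rw [hc, Module.Basis.reindex_apply]; rfl
  have hcc : ∀ m n : ℤ, ⁅c m, c n⁆ = ((n - m : ℤ) : F) • c (m + n - 1) := by
    intro m n
    rw [hcm, hcm, hcm, he]
    have h1 : m - 1 + (n - 1) = m + n - 1 - 1 := by ring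
    rw [h1]
    congr 2
    ring
  have hW : IsW F (fun m => UniversalEnvelopingAlgebra.ι F (c m)) := by
    intro m n j hmn
    have h2 : (Lab.one : ℤ) = 1 := rfl
    have h3 : ∀ k : ℤ, (Lab.c k : ℤ) = k := fun k => rfl
    rw [h2] at hmn
    beta_reduce
    rw [iota_comm, hcc, map_smul, h3, h3]
    congr 3
    omega
  exact C.cp_wit (F := F) hW (span_of_adjoin (uea_adjoin_basis F c)) (dom F L) hP hab

lemma virasoro [CharZero F] [IsAlgClosed F] (hL : IsVirasoro F L) : AllCompletelyPrime F L := by
  obtain ⟨e, hz, he⟩ := hL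
  apply all_of
  intro P hP a b hab
  let eqv : Option ℤ ≃ WithBot ℤ := Equiv.refl _
  set w : WithBot ℤ → Fˣ := fun i => i.recBotCoe 1 (fun _ => -1) with hw
  set c : Module.Basis (WithBot ℤ) F L := (e.reindex eqv).unitsSMul w with hc
  have hc0 : c ⊥ = e none := by
    rw [hc, Module.Basis.unitsSMul_apply, Module.Basis.reindex_apply]
    change (1 : Fˣ) • _ = _
    rw [one_smul]
    rfl
  have hcn : ∀ n : ℤ, c (n : WithBot ℤ) = - e (some n) := by
    intro n
    rw [hc, Module.Basis.unitsSMul_apply, Module.Basis.reindex_apply]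
    change (-1 : Fˣ) • _ = _
    rw [Units.smul_def, Units.val_neg, Units.val_one, neg_smul, one_smul]
    rfl
  set z : UniversalEnvelopingAlgebra F L := UniversalEnvelopingAlgebra.ι F (c ⊥) with hzdef
  set x : ℤ → UniversalEnvelopingAlgebra F L :=
    fun n => UniversalEnvelopingAlgebra.ι F (c (n : WithBot ℤ)) with hx
  have hxc : ∀ i : WithBot ℤ, UniversalEnvelopingAlgebra.ι F (c i) = i.recBotCoe z x := by
    intro i
    induction i using WithBot.recBotCoe with
    | bot => rfl
    | coe n => rfl
  have hadj := uea_adjoin_basis F c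
  have hgen : Algebra.adjoin F (insert z (Set.range x)) = ⊤ := by
    rw [eq_top_iff, ← hadj, Algebra.adjoin_le_iff]
    rintro _ ⟨i, rfl⟩
    apply Algebra.subset_adjoin
    induction i using WithBot.recBotCoe with
    | bot => exact Set.mem_insert _ _
    | coe n => exact Set.mem_insert_of_mem _ ⟨n, rfl⟩
  have hzz : ∀ y, z * y = y * z := by
    intro y
    have hy : y ∈ Algebra.adjoin F (Set.range fun i => UniversalEnvelopingAlgebra.ι F (c i)) := by
      rw [hadj]; trivial
    induction hy using Algebra.adjoin_induction with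
    | mem y hy =>
      obtain ⟨i, rfl⟩ := hy
      have h1 := iota_comm (F := F) (c ⊥) (c i)
      rw [hc0, hz, map_zero, sub_eq_zero, ← hc0] at h1
      exact h1
    | algebraMap r => exact (Algebra.commutes r z).symm
    | add y y' _ _ h h' => rw [mul_add, add_mul, h, h']
    | mul y y' _ _ h h' => rw [← mul_assoc, h, mul_assoc, h', ← mul_assoc]
  have hV : Vir.IsVirZ F x z := by
    refine ⟨hzz, fun m n => ?_⟩
    rw [hx]
    beta_reduce
    rw [iota_comm, hcn, hcn, hcn, neg_lie, lie_neg, neg_neg, he, map_add, map_smul, map_neg,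
      hzdef, hc0]
    congr 1
    · rw [smul_neg, ← neg_smul]
      congr 1
      push_cast
      ring
    · split_ifs
      · rw [map_smul]
      · rw [map_zero]
  obtain ⟨β, hβ⟩ := PBW.exists_basis F L (WithBot ℤ) c
  exact C.cp_vir (F := F) hV hgen β (fun l => by
    rw [hβ]
    congr 1
    apply List.map_congr_left
    intro i _
    exact hxc i) (dom F L) hP hab

end

/-- Over a field of characteristic zero, every primitive ideal and every prime ideal of `U(W_{-1})` and of
`U(W)` is completely prime; over an algebraically closed field of characteristic zero, so is every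
primitive ideal and every prime ideal of `U(Vir)`. -/
theorem result (F : Type) [Field F] [CharZero F] (L : Type) [LieRing L] [LieAlgebra F L] :
    (IsWittMinusOne F L → AllCompletelyPrime F L) ∧
    (IsWitt F L → AllCompletelyPrime F L) ∧
    (IsAlgClosed F → IsVirasoro F L → AllCompletelyPrime F L) :=
  ⟨wittMinusOne, witt, fun _ => virasoro⟩

end Pool.Agent.Results.MP_cc24ba_al.CompletelyPrime
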